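import Mathlib

/-!
Twists of 1-periodic holomorphic functions on the upper half plane by real primitive characters:
the completed twisted `L`-function as a Mellin transform, and its central zero when the sign of the
functional equation is not `1`.
-/

set_option autoImplicit false

open Complex Filter Asymptotics MeasureTheory Set
open UpperHalfPlane hiding I
open scoped Real Topology MatrixGroups ZMod

noncomputable section

namespace Pool.Agent.TH847.TW

/-- the additive twist `∑ ψ(b) f(z + b/q)` -/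
def tw (f : ℍ → ℂ) {q : ℕ} [NeZero q] (ψ : DirichletCharacter ℂ q) (z : ℍ) : ℂ :=
  ∑ b : ZMod q, ψ b * f (((b.val : ℝ) / q) +ᵥ z)

/-- the point `i t` (for `t > 0`) -/
def pt (t : ℝ) : ℍ := ofComplex (I * t)

lemma coe_pt {t : ℝ} (ht : 0 < t) : (pt t : ℂ) = I * t := by
  have h : 0 < (I * (t : ℂ)).im := by simpa using ht
  rw [pt, ofComplex_apply_of_im_pos h]

lemma im_pt {t : ℝ} (ht : 0 < t) : (pt t).im = t := by
  rw [← coe_im, coe_pt ht]
  simp

lemma continuousOn_pt : ContinuousOn pt (Ioi 0) := by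
  have h : ContinuousOn (fun t : ℝ => ofComplex (I * t)) (Ioi 0) := by
    fun_prop
  exact h

lemma gaussSum_ne_zero' {q : ℕ} [NeZero q] {ψ : DirichletCharacter ℂ q} (hψ : ψ.IsPrimitive) :
    gaussSum ψ ZMod.stdAddChar ≠ 0 := by
  intro h
  have h1 : 𝓕 (ψ : ZMod q → ℂ) = 0 := by
    ext k
    rw [hψ.fourierTransform_eq_inv_mul_gaussSum k, h, mul_zero]
    rfl
  have h2 : (ψ : ZMod q → ℂ) = 0 := by
    have := (ZMod.dft (N := q) (E := ℂ)).map_eq_zero_iff.mp h1
    exact this
  have h3 := congrFun h2 1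
  simp at h3

section tw

variable {f : ℍ → ℂ} {a : ℕ → ℂ} {q : ℕ} [NeZero q] {ψ : DirichletCharacter ℂ q}

/-- Fourier expansion of the twist -/
lemma hasSum_tw (hψ : ψ.IsPrimitive)
    (hf : ∀ z : ℍ, HasSum (fun n : ℕ => a n * cexp (2 * π * I * n * z)) (f z)) (z : ℍ) :
    HasSum (fun n : ℕ => gaussSum ψ ZMod.stdAddChar * (a n * ψ⁻¹ n) * cexp (2 * π * I * n * z))
      (tw f ψ z) := by
  have h1 : ∀ b ∈ (Finset.univ : Finset (ZMod q)), HasSum (fun n : ℕ =>
      ψ b * (a n * cexp (2 * π * I * n * ((((b.val : ℝ) / q) +ᵥ z : ℍ) : ℂ))))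
      (ψ b * f (((b.val : ℝ) / q) +ᵥ z)) := fun b _ => (hf _).mul_left _
  have h2 := hasSum_sum h1
  have h3 : (fun n : ℕ => gaussSum ψ ZMod.stdAddChar * (a n * ψ⁻¹ n) * cexp (2 * π * I * n * z)) =
      fun n : ℕ => ∑ b : ZMod q,
        ψ b * (a n * cexp (2 * π * I * n * ((((b.val : ℝ) / q) +ᵥ z : ℍ) : ℂ))) := by
    funext n
    have h4 := gaussSum_mulShift_of_isPrimitive (ZMod.stdAddChar (N := q)) hψ (n : ZMod q)
    rw [gaussSum] at h4
    have h5 : ∀ b : ZMod q, ψ b * (a n * cexp (2 * π * I * n * ((((b.val : ℝ) / q) +ᵥ z : ℍ) : ℂ)))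
        = (ψ b * (ZMod.stdAddChar.mulShift (n : ZMod q)) b) * (a n * cexp (2 * π * I * n * z)) := by
      intro b
      have h6 : ((n : ZMod q) * b) = (((n * b.val : ℕ) : ℤ) : ZMod q) := by
        push_cast
        rw [ZMod.natCast_zmod_val]
      rw [AddChar.mulShift_apply, h6, ZMod.stdAddChar_coe, coe_vadd]
      have h7 : cexp (2 * π * I * n * ((((b.val : ℝ) / q : ℝ) : ℂ) + z)) =
          cexp (2 * π * I * ((n * b.val : ℕ) : ℤ) / q) * cexp (2 * π * I * n * z) := by
        rw [← Complex.exp_add]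
        congr 1
        push_cast
        ring
      rw [h7]
      ring
    rw [Finset.sum_congr rfl (fun b _ => h5 b), ← Finset.sum_mul, h4]
    ring
  rw [h3]
  exact h2

lemma continuous_tw (hc : Continuous f) : Continuous (tw f ψ) := by
  unfold tw
  refine continuous_finsetSum _ fun b _ => continuous_const.mul (hc.comp ?_)
  exact (isometry_real_vadd _).continuous

lemma tendsto_pt {b lam : ℝ} (hlam : 0 < lam) :
    Tendsto (fun t : ℝ => b +ᵥ pt (t / lam)) atTop atImInfty := by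
  rw [atImInfty, tendsto_comap_iff]
  refine (tendsto_id.atTop_div_const hlam).congr' ?_
  filter_upwards [eventually_gt_atTop 0] with t ht
  simp [im_pt (div_pos ht hlam)]

lemma tw_decay (hdec : ∃ c > 0, f =O[atImInfty] fun τ => Real.exp (-c * τ.im)) {lam : ℝ}
    (hlam : 0 < lam) (r : ℝ) :
    (fun t : ℝ => tw f ψ (pt (t / lam))) =O[atTop] fun t => t ^ r := by
  obtain ⟨c, hc, hO⟩ := hdec
  unfold tw
  refine IsBigO.fun_sum fun b _ => ?_
  have h1 := hO.comp_tendsto (tendsto_pt (b := (b.val : ℝ) / q) hlam)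
  have h2 : (fun t : ℝ => Real.exp (-(c / lam) * t)) =O[atTop] fun t : ℝ => t ^ r :=
    (isLittleO_exp_neg_mul_rpow_atTop (div_pos hc hlam) r).isBigO
  have h3 : ((fun τ : ℍ => Real.exp (-c * τ.im)) ∘ fun t : ℝ =>
      ((b.val : ℝ) / q) +ᵥ pt (t / lam)) =O[atTop] fun t : ℝ => Real.exp (-(c / lam) * t) := by
    refine IsBigO.of_bound 1 ?_
    filter_upwards [eventually_gt_atTop 0] with t ht
    have h4 : -c * (t / lam) = -(c / lam) * t := by ring
    simp only [Function.comp, vadd_im, im_pt (div_pos ht hlam), one_mul, h4]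
    exact le_rfl
  have h5 : (fun t : ℝ => f (((b.val : ℝ) / q) +ᵥ pt (t / lam))) =O[atTop] fun t => t ^ r :=
    (h1.trans h3).trans h2
  exact h5.const_mul_left _

/-- The twisted `L`-function: entire continuation of the Dirichlet series, and central zero. -/
theorem analytic (hψ : ψ.IsPrimitive) (ha0 : a 0 = 0)
    (hf : ∀ z : ℍ, HasSum (fun n : ℕ => a n * cexp (2 * π * I * n * z)) (f z))
    (hc : Continuous f)
    (hdec : ∃ c > 0, f =O[atImInfty] fun τ => Real.exp (-c * τ.im)) {r : ℝ} (hr : 0 ≤ r)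
    (ha : a =O[atTop] fun n : ℕ => (n : ℝ) ^ r) {k : ℝ} (hk : 0 < k) {lam : ℝ} (hlam : 0 < lam)
    {ε : ℂ} (hε : ε ≠ 0)
    (hfe : ∀ t : ℝ, 0 < t →
      tw f ψ (pt (1 / (lam * t))) = ε * ((t ^ k : ℝ) : ℂ) * tw f ψ (pt (t / lam))) :
    ∃ L : ℂ → ℂ, Differentiable ℂ L ∧
      (∀ s : ℂ, r + 1 < s.re → HasSum (fun n : ℕ => a n * ψ⁻¹ n / (n : ℂ) ^ s) (L s)) ∧
      (ε ≠ 1 → L (k / 2) = 0) := by
  set F : ℝ → ℂ := fun t => tw f ψ (pt (t / lam)) with hF
  have hFc : ContinuousOn F (Ioi 0) := by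
    refine (continuous_tw hc).comp_continuousOn' (continuousOn_pt.comp ?_ ?_)
    · exact (continuous_id.div_const lam).continuousOn
    · intro t ht
      exact div_pos ht hlam
  have hint : LocallyIntegrableOn F (Ioi 0) :=
    hFc.locallyIntegrableOn measurableSet_Ioi
  let P : WeakFEPair ℂ :=
    { f := F
      g := F
      k := k
      ε := ε
      f₀ := 0
      g₀ := 0
      hf_int := hint
      hg_int := hint
      hk := hk
      hε := hε
      h_feq := by
        intro x hx
        have := hfe x hx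
        rw [smul_eq_mul, hF]
        simp only
        rw [← this]
        congr 2
        field_simp
      hf_top := fun r => by simpa using tw_decay hdec hlam r
      hg_top := fun r => by simpa using tw_decay hdec hlam r }
  have hP : IsStrongFEPair P := ⟨rfl, rfl⟩
  have hΛ : P.Λ = mellin F := hP.Λ_eq
  have hΛ' : P.symm.Λ = mellin F := hP.symm_Λ_eq
  have hdiff : Differentiable ℂ (mellin F) := hΛ ▸ hP.differentiable_Λ
  have hFE : ∀ s : ℂ, mellin F (k - s) = ε * mellin F s := by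
    intro s
    have h := P.functional_equation s
    rw [hΛ, hΛ'] at h
    simpa using h
  set τ := gaussSum ψ ZMod.stdAddChar with hτ
  have hτ0 : τ ≠ 0 := gaussSum_ne_zero' hψ
  have hl : (2 * π / lam : ℝ) ≠ 0 := by positivity
  refine ⟨fun s => mellin F s * (Gamma s)⁻¹ * τ⁻¹ * ((2 * π / lam : ℝ) : ℂ) ^ s, ?_, ?_, ?_⟩
  · refine ((hdiff.mul differentiable_one_div_Gamma).mul_const _).mul ?_
    intro s
    exact (differentiableAt_id).const_cpow (Or.inl (by exact_mod_cast hl))
  · intro s hs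
    have hs0 : 0 < s.re := by linarith
    have h1 : HasSum (fun n : ℕ => Gamma s * (τ * (a n * ψ⁻¹ n)) /
        ((2 * π * n / lam : ℝ) : ℂ) ^ s) (mellin F s) := by
      refine hasSum_mellin (p := fun n : ℕ => 2 * π * n / lam) (fun n => ?_) hs0 ?_ ?_
      · rcases Nat.eq_zero_or_pos n with rfl | hn
        · left; simp [ha0]
        · right; positivity
      · intro t ht
        have h2 := hasSum_tw hψ hf (pt (t / lam))
        convert h2 using 2 with n
        rw [coe_pt (div_pos ht hlam), ofReal_exp]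
        congr 2
        push_cast
        ring_nf
        rw [I_sq]
        ring
      · have h3 : ∀ n : ℕ, ‖τ * (a n * ψ⁻¹ n)‖ / (2 * π * n / lam) ^ s.re ≤
            (‖τ‖ * ((2 * π / lam) ^ s.re)⁻¹) * (‖a n‖ / (n : ℝ) ^ s.re) := by
          intro n
          have h4 : (2 * π * n / lam : ℝ) ^ s.re = (2 * π / lam) ^ s.re * (n : ℝ) ^ s.re := by
            rw [← Real.mul_rpow (by positivity) (by positivity)]
            congr 1
            ring
          rw [h4, norm_mul, norm_mul]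
          have h5 : ‖ψ⁻¹ (n : ZMod q)‖ ≤ 1 := DirichletCharacter.norm_le_one _ _
          have h6 : (0 : ℝ) < (2 * π / lam) ^ s.re := by positivity
          have h7 : (0 : ℝ) ≤ (n : ℝ) ^ s.re := by positivity
          rw [div_eq_mul_inv, div_eq_mul_inv, mul_inv]
          have h8 : ‖τ‖ * (‖a n‖ * ‖ψ⁻¹ (n : ZMod q)‖) ≤ ‖τ‖ * ‖a n‖ := by
            gcongr
            exact mul_le_of_le_one_right (norm_nonneg _) h5
          calc ‖τ‖ * (‖a n‖ * ‖ψ⁻¹ (n : ZMod q)‖) * (((2 * π / lam) ^ s.re)⁻¹ * ((n : ℝ) ^ s.re)⁻¹)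
              ≤ ‖τ‖ * ‖a n‖ * (((2 * π / lam) ^ s.re)⁻¹ * ((n : ℝ) ^ s.re)⁻¹) := by
                gcongr
            _ = _ := by ring
        have h9 : Summable fun n : ℕ => ‖a n‖ / (n : ℝ) ^ s.re := by
          apply summable_of_isBigO_nat (Real.summable_nat_rpow.mpr <| show r - s.re < -1 by linarith)
          simp only [Real.rpow_sub' (Nat.cast_nonneg _) (show r - s.re ≠ 0 by linarith)]
          apply IsBigO.mul _ (isBigO_refl _ _)
          simpa using ha.norm_left
        refine Summable.of_nonneg_of_le (fun n => ?_) h3 (h9.mul_left _)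
        positivity
    have h10 := h1.mul_right ((Gamma s)⁻¹ * τ⁻¹ * ((2 * π / lam : ℝ) : ℂ) ^ s)
    have hG : Gamma s ≠ 0 := Gamma_ne_zero_of_re_pos hs0
    have hcp : ((2 * π / lam : ℝ) : ℂ) ^ s ≠ 0 := by
      rw [Ne, cpow_eq_zero_iff, not_and_or]
      exact Or.inl (by exact_mod_cast hl)
    have h12 : (fun n : ℕ => a n * ψ⁻¹ n / (n : ℂ) ^ s) = fun n : ℕ =>
        Gamma s * (τ * (a n * ψ⁻¹ n)) / ((2 * π * n / lam : ℝ) : ℂ) ^ s *
          ((Gamma s)⁻¹ * τ⁻¹ * ((2 * π / lam : ℝ) : ℂ) ^ s) := by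
      funext n
      have h11 : ((2 * π * n / lam : ℝ) : ℂ) ^ s =
          ((2 * π / lam : ℝ) : ℂ) ^ s * (n : ℂ) ^ s := by
        have : (2 * π * n / lam : ℝ) = (2 * π / lam) * (n : ℝ) := by ring
        rw [this, ofReal_mul, mul_cpow_ofReal_nonneg (by positivity) (by positivity)]
        simp
      rw [h11]
      rcases Nat.eq_zero_or_pos n with rfl | hn
      · simp [ha0]
      · have hn' : (n : ℂ) ^ s ≠ 0 := by
          rw [Ne, cpow_eq_zero_iff, not_and_or]
          exact Or.inl (by exact_mod_cast hn.ne')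
        field_simp
    have h13 : mellin F s * (Gamma s)⁻¹ * τ⁻¹ * ((2 * π / lam : ℝ) : ℂ) ^ s =
        mellin F s * ((Gamma s)⁻¹ * τ⁻¹ * ((2 * π / lam : ℝ) : ℂ) ^ s) := by ring
    rw [h12]
    show HasSum _ (mellin F s * (Gamma s)⁻¹ * τ⁻¹ * ((2 * π / lam : ℝ) : ℂ) ^ s)
    rw [h13]
    exact h10
  · intro h1
    have h2 := hFE (k / 2)
    have h3 : (k : ℂ) - k / 2 = k / 2 := by ring
    rw [h3] at h2
    have h4 : mellin F (k / 2) = 0 := by
      have h5 : (1 - ε) * mellin F (k / 2) = 0 := by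
        rw [sub_mul, one_mul, ← h2, sub_self]
      rcases mul_eq_zero.mp h5 with h6 | h6
      · exact absurd (sub_eq_zero.mp h6).symm h1
      · exact h6
    simp [h4]

end tw

end Pool.Agent.TH847.TW
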