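import Pool.Agent.TH847.TW.Sign

/-!
Twists of cusp forms on `Γ₀(M)`, `M = 1` or prime, by real primitive characters: if `χ` is an odd
quadratic character with `χ(M) = 1`, then for every quadratic `ψ` one of `L(f ⊗ ψ, 1/2)` and
`L(f ⊗ χψ, 1/2)` vanishes.
-/

set_option autoImplicit false

open Complex Filter Asymptotics MeasureTheory Set
open UpperHalfPlane hiding I
open scoped Real Topology MatrixGroups ZMod

noncomputable section

namespace Pool.Agent.TH847.TW

/-- `L` is the `L`-function of the twist `f ⊗ ψ` of a form `f` of weight `k` by the Dirichlet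
character `ψ`, in the analytic normalisation (the centre is `1/2`): it is entire and equal to
`∑ a(n) n^{-(k-1)/2} ψ(n) n^{-s}` for `Re s > 3/2`, where `∑ a(n) q^n` is the Fourier expansion of
`f`. -/
def IsTwistedL (k : ℤ) (f : ℍ → ℂ) {q : ℕ} (ψ : DirichletCharacter ℂ q) (L : ℂ → ℂ) : Prop :=
  Differentiable ℂ L ∧ ∀ s : ℂ, 3 / 2 < s.re →
    HasSum (fun n : ℕ => (qExpansion 1 f).coeff n * ψ n / (n : ℂ) ^ (s + ((k : ℂ) - 1) / 2)) (L s)

lemma IsTwistedL.unique {k : ℤ} {f : ℍ → ℂ} {q : ℕ} {ψ : DirichletCharacter ℂ q} {L₁ L₂ : ℂ → ℂ}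
    (h₁ : IsTwistedL k f ψ L₁) (h₂ : IsTwistedL k f ψ L₂) : L₁ = L₂ := by
  have h1 : AnalyticOnNhd ℂ L₁ univ := fun z _ => h₁.1.analyticAt z
  have h2 : AnalyticOnNhd ℂ L₂ univ := fun z _ => h₂.1.analyticAt z
  refine h1.eq_of_eventuallyEq h2 (z₀ := 2) ?_
  have ho : IsOpen {s : ℂ | 3 / 2 < s.re} := isOpen_lt continuous_const continuous_re
  filter_upwards [ho.mem_nhds (show (2 : ℂ) ∈ {s : ℂ | 3 / 2 < s.re} by simp; norm_num)] with s hs
  exact (h₁.2 s hs).unique (h₂.2 s hs)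

section

variable {Γ : Subgroup (GL (Fin 2) ℝ)} [Γ.IsArithmetic] {k : ℤ} {F : Type*} [FunLike F ℍ ℂ]
  [CuspFormClass F Γ k]

/-- the `L`-function of a twist, from a functional equation of `tw f ψ` -/
theorem exists_L (hΓ : Γ.strictWidthInfty = 1) (hk : 0 < k) (f : F) {q : ℕ} [NeZero q]
    {ψ : DirichletCharacter ℂ q} (hψ : ψ.IsPrimitive) (h2 : ψ ^ 2 = 1) {lam : ℝ} (hlam : 0 < lam)
    {ε : ℂ} (hε : ε ≠ 0)
    (hfe : ∀ t : ℝ, 0 < t →
      tw f ψ (pt (1 / (lam * t))) = ε * ((t ^ (k : ℝ) : ℝ) : ℂ) * tw f ψ (pt (t / lam))) :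
    ∃ L : ℂ → ℂ, IsTwistedL k f ψ L ∧ (ε ≠ 1 → L (1 / 2) = 0) := by
  have hone : (1 : ℝ) ∈ Γ.strictPeriods := hΓ ▸ Γ.strictWidthInfty_mem_strictPeriods
  have hk' : (0 : ℝ) < k := by exact_mod_cast hk
  have hF1 : ∀ z : ℍ, HasSum (fun n : ℕ => (qExpansion 1 f).coeff n *
      cexp (2 * π * I * n * z)) (f z) := by
    intro z
    have h := ModularForm.hasSum_qExpansion f one_pos hone z
    convert h using 2 with n
    rw [Function.Periodic.qParam, ← Complex.exp_nat_mul]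
    congr 2
    push_cast
    ring
  have hF2 : Continuous (f : ℍ → ℂ) := (ModularFormClass.holo f).continuous
  have hF3 : ∃ c > 0, (f : ℍ → ℂ) =O[atImInfty] fun τ => Real.exp (-c * τ.im) :=
    ⟨2 * π, by positivity, by
      simpa using CuspFormClass.exp_decay_atImInfty f one_pos hone⟩
  have hF4 : (fun n : ℕ => (qExpansion 1 f).coeff n) =O[atTop] fun n : ℕ =>
      (n : ℝ) ^ ((k : ℝ) / 2) := by
    have := CuspFormClass.qExpansion_isBigO (Γ := Γ) f
    rw [hΓ] at this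
    exact this
  obtain ⟨L, hL1, hL2, hL3⟩ := analytic (f := f) (a := fun n => (qExpansion 1 f).coeff n)
    (r := (k : ℝ) / 2) (k := (k : ℝ)) hψ
    (CuspFormClass.qExpansion_coeff_zero f one_pos hone) hF1 hF2 hF3 (by positivity) hF4 hk' hlam
    hε hfe
  · have hinv : ψ⁻¹ = ψ := by
      rw [inv_eq_iff_mul_eq_one, ← sq]
      exact h2
    refine ⟨fun s => L (s + ((k : ℂ) - 1) / 2), ⟨?_, ?_⟩, ?_⟩
    · exact hL1.comp (differentiable_id.add_const _)
    · intro s hs
      have h3 : (k : ℝ) / 2 + 1 < (s + ((k : ℂ) - 1) / 2).re := by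
        have : (s + ((k : ℂ) - 1) / 2).re = s.re + ((k : ℝ) - 1) / 2 := by
          simp
        rw [this]
        linarith
      have h4 := hL2 _ h3
      rw [hinv] at h4
      exact h4
    · intro h1
      have h5 : (1 / 2 : ℂ) + ((k : ℂ) - 1) / 2 = ((k : ℝ) : ℂ) / 2 := by
        push_cast
        ring
      show L (1 / 2 + ((k : ℂ) - 1) / 2) = 0
      rw [h5]
      exact hL3 h1

lemma it_zpow {t : ℝ} (k : ℤ) : (I * t) ^ k = I ^ k * ((t ^ (k : ℝ) : ℝ) : ℂ) := by
  rw [mul_zpow, Real.rpow_intCast, ofReal_zpow]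

/-- the `L`-function of `f ⊗ ψ` and the sign of its functional equation, `M ∣ q` -/
theorem exists_L_dvd (hΓ : Γ.strictWidthInfty = 1) (hk : 0 < k) (f : F) {M : ℕ} (hf : Inv M k f)
    {q : ℕ} [NeZero q] (hM : M ∣ q) {ψ : DirichletCharacter ℂ q} (hψ : ψ.IsPrimitive)
    (h2 : ψ ^ 2 = 1) :
    ∃ L : ℂ → ℂ, IsTwistedL k f ψ L ∧ (I ^ k * ψ (-1) ≠ 1 → L (1 / 2) = 0) := by
  have hq : (0 : ℝ) < q := by exact_mod_cast Nat.pos_of_ne_zero (NeZero.ne q)
  have hε : I ^ k * ψ (-1) ≠ 0 := by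
    refine mul_ne_zero (zpow_ne_zero _ I_ne_zero) ?_
    have := sq_apply h2 (-1)
    intro h
    rw [Units.val_neg, Units.val_one, h, mul_zero] at this
    exact zero_ne_one this
  refine exists_L hΓ hk f hψ h2 hq hε fun t ht => ?_
  rw [tw_dvd hf hM h2 ht, it_zpow]
  ring

/-- the `L`-function of `f ⊗ ψ` and the sign of its functional equation, `(M, q) = 1` -/
theorem exists_L_coprime (hΓ : Γ.strictWidthInfty = 1) (hk : 0 < k) (f : F) {M : ℕ} [NeZero M]
    (hf : Inv M k f) {w : ℂ} (hw0 : w ≠ 0) (hw : Fricke M k w f)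
    {q : ℕ} [NeZero q] (hM : M.Coprime q) {ψ : DirichletCharacter ℂ q} (hψ : ψ.IsPrimitive)
    (h2 : ψ ^ 2 = 1) :
    ∃ L : ℂ → ℂ, IsTwistedL k f ψ L ∧ (w * I ^ k * ψ (-(M : ZMod q)) ≠ 1 → L (1 / 2) = 0) := by
  have hq : (0 : ℝ) < q := by exact_mod_cast Nat.pos_of_ne_zero (NeZero.ne q)
  have hM' : (0 : ℝ) < M := by exact_mod_cast Nat.pos_of_ne_zero (NeZero.ne M)
  have hε : w * I ^ k * ψ (-(M : ZMod q)) ≠ 0 := by
    refine mul_ne_zero (mul_ne_zero hw0 (zpow_ne_zero _ I_ne_zero)) ?_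
    have := sq_apply h2 (-(ZMod.unitOfCoprime M hM))
    intro h
    rw [Units.val_neg, ZMod.coe_unitOfCoprime, h, mul_zero] at this
    exact zero_ne_one this
  refine exists_L hΓ hk f hψ h2 (lam := Real.sqrt M * q) (mul_pos (Real.sqrt_pos.mpr hM') hq) hε
    fun t ht => ?_
  rw [tw_coprime hf hw hM h2 ht, it_zpow]
  ring

/-- For `M = 1` or `M` prime, `χ` odd quadratic with `χ(M) = 1`, and every real primitive `ψ`, one of
`L(f ⊗ ψ, 1/2)`, `L(f ⊗ χψ, 1/2)` is zero. -/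
theorem pair_vanish (hΓ : Γ.strictWidthInfty = 1) (hk : 0 < k) (f : F) {M : ℕ} [NeZero M]
    (hM : M = 1 ∨ M.Prime) (hf : Inv M k f) {w : ℂ} (hw0 : w ≠ 0) (hw : Fricke M k w f)
    {N : ℕ} [NeZero N] {χ : DirichletCharacter ℂ N} (hχ2 : χ ^ 2 = 1) (hχo : χ.Odd)
    (hχM : χ M = 1) (hχ : χ.IsPrimitive)
    {q : ℕ} [NeZero q] {ψ : DirichletCharacter ℂ q} (hψ : ψ.IsPrimitive) (h2 : ψ ^ 2 = 1) :
    ∃ L₁ L₂ : ℂ → ℂ, IsTwistedL k f ψ L₁ ∧ IsTwistedL k f (χ.primitive_mul ψ) L₂ ∧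
      L₁ (1 / 2) * L₂ (1 / 2) = 0 := by
  have hl : NeZero (Nat.lcm N q) := ⟨Nat.lcm_ne_zero (NeZero.ne N) (NeZero.ne q)⟩
  have hm : NeZero (DirichletCharacter.mul χ ψ).conductor :=
    ⟨DirichletCharacter.conductor_ne_zero _⟩
  have hml : (DirichletCharacter.mul χ ψ).conductor ∣ Nat.lcm N q :=
    DirichletCharacter.conductor_dvd_level _
  have hη : (χ.primitive_mul ψ).IsPrimitive := DirichletCharacter.primitive_mul_isPrimitive χ ψ
  have hmul2 : (DirichletCharacter.mul χ ψ) ^ 2 = 1 := by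
    rw [DirichletCharacter.mul, mul_pow, ← map_pow, ← map_pow, hχ2, h2, map_one, map_one, one_mul]
  have hη2 : (χ.primitive_mul ψ) ^ 2 = 1 := by
    apply DirichletCharacter.changeLevel_injective hml
    rw [map_pow, map_one, DirichletCharacter.mul_def,
      DirichletCharacter.changeLevel_primitiveCharacter, hmul2]
  have hval : ∀ a : ℤ, IsCoprime a (Nat.lcm N q : ℤ) →
      (χ.primitive_mul ψ) (a : ZMod _) = χ (a : ZMod N) * ψ (a : ZMod q) := by
    intro a ha
    rw [DirichletCharacter.mul_def, DirichletCharacter.primitiveCharacter_apply_of_isCoprime _ ha,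
      DirichletCharacter.mul, MulChar.mul_apply,
      DirichletCharacter.changeLevel_eq_cast_of_dvd' _ _ ha,
      DirichletCharacter.changeLevel_eq_cast_of_dvd' _ _ ha]
  have hχo' : χ (-1) = -1 := hχo
  have hη1 : (χ.primitive_mul ψ) (-1) = -ψ (-1) := by
    have := hval (-1) (isCoprime_one_left.neg_left)
    push_cast at this
    rw [this, hχo']
    ring
  have hMN : M.Coprime N := by
    have : IsUnit (M : ZMod N) := by
      by_contra h
      rw [MulChar.map_nonunit _ h] at hχM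
      exact zero_ne_one hχM
    exact (ZMod.isUnit_iff_coprime M N).mp this
  by_cases hMq : M.Coprime q
  · have hMl : M.Coprime (Nat.lcm N q) := Nat.Coprime.coprime_dvd_right
      (Nat.lcm_dvd_mul N q) (Nat.Coprime.mul_right hMN hMq)
    have hMm : M.Coprime (DirichletCharacter.mul χ ψ).conductor :=
      Nat.Coprime.coprime_dvd_right hml hMl
    obtain ⟨L₁, h11, h12⟩ := exists_L_coprime hΓ hk f hf hw0 hw hMq hψ h2
    obtain ⟨L₂, h21, h22⟩ := exists_L_coprime hΓ hk f hf hw0 hw hMm hη hη2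
    refine ⟨L₁, L₂, h11, h21, ?_⟩
    have hηM : (χ.primitive_mul ψ) (-(M : ZMod _)) = -ψ (-(M : ZMod q)) := by
      have := hval (-(M : ℤ)) (by
        rw [IsCoprime.neg_left_iff]
        exact Nat.isCoprime_iff_coprime.mpr hMl)
      push_cast at this
      rw [this]
      have h5 : χ (-(M : ZMod N)) = -1 := by
        rw [neg_eq_neg_one_mul, map_mul, hχM, hχo']
        ring
      rw [h5]
      ring
    by_cases h1 : w * I ^ k * ψ (-(M : ZMod q)) = 1
    · rw [h22 ?_, mul_zero]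
      rw [hηM, mul_neg, h1]
      norm_num
    · rw [h12 h1, zero_mul]
  · have hMp : M.Prime := by
      rcases hM with rfl | h
      · exact absurd (Nat.coprime_one_left q) hMq
      · exact h
    have hMdq : M ∣ q := by
      by_contra h
      exact hMq ((Nat.Prime.coprime_iff_not_dvd hMp).mpr h)
    have hMm : M ∣ (DirichletCharacter.mul χ ψ).conductor := by
      have h3 : DirichletCharacter.changeLevel (Nat.dvd_lcm_right N q) ψ =
          DirichletCharacter.changeLevel (Nat.dvd_lcm_left N q) χ * DirichletCharacter.mul χ ψ := by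
        rw [DirichletCharacter.mul, ← mul_assoc, ← sq, ← map_pow, hχ2, map_one, one_mul]
      have h4 := DirichletCharacter.conductor_mul_dvd_lcm_conductor
        (DirichletCharacter.changeLevel (Nat.dvd_lcm_left N q) χ) (DirichletCharacter.mul χ ψ)
      rw [← h3, DirichletCharacter.conductor_changeLevel, DirichletCharacter.conductor_changeLevel,
        (DirichletCharacter.isPrimitive_def ψ).mp hψ, (DirichletCharacter.isPrimitive_def χ).mp hχ]
        at h4
      have h5 : M ∣ Nat.lcm N (DirichletCharacter.mul χ ψ).conductor := hMdq.trans h4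
      have h6 := h5.trans (Nat.lcm_dvd_mul N _)
      rcases (Nat.Prime.dvd_mul hMp).mp h6 with h7 | h7
      · exact absurd h7 ((Nat.Prime.coprime_iff_not_dvd hMp).mp hMN)
      · exact h7
    obtain ⟨L₁, h11, h12⟩ := exists_L_dvd hΓ hk f hf hMdq hψ h2
    obtain ⟨L₂, h21, h22⟩ := exists_L_dvd hΓ hk f hf hMm hη hη2
    refine ⟨L₁, L₂, h11, h21, ?_⟩
    by_cases h1 : I ^ k * ψ (-1) = 1
    · rw [h22 ?_, mul_zero]
      rw [hη1, mul_neg, h1]
      norm_num
    · rw [h12 h1, zero_mul]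

end

end Pool.Agent.TH847.TW
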