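import Pool.Agent.TH847.TW.Transform

/-!
The sign of the functional equation of a twist by a real primitive character.
-/

set_option autoImplicit false

open Complex Filter Asymptotics MeasureTheory Set
open UpperHalfPlane hiding I
open scoped Real Topology MatrixGroups ZMod

noncomputable section

namespace Pool.Agent.TH847.TW

lemma sq_apply {q : ℕ} {ψ : DirichletCharacter ℂ q} (h2 : ψ ^ 2 = 1) (u : (ZMod q)ˣ) :
    ψ (u : ZMod q) * ψ (u : ZMod q) = 1 := by
  have h := congrArg (fun χ : DirichletCharacter ℂ q => χ (u : ZMod q)) h2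
  simp only [sq, MulChar.mul_apply, MulChar.one_apply_coe] at h
  exact h

/-- pairing of the residues `b`, `b'` with `c b b' = -1` -/
lemma sum_pair {q : ℕ} [NeZero q] {ψ : DirichletCharacter ℂ q} (h2 : ψ ^ 2 = 1) {A B : ZMod q → ℂ}
    {C : ℂ} (c : (ZMod q)ˣ)
    (h : ∀ b b' : ZMod q, (c : ZMod q) * (b * b') + 1 = 0 → A b = C * B b') :
    ∑ b : ZMod q, ψ b * A b = C * ψ (-(c : ZMod q)) * ∑ b : ZMod q, ψ b * B b := by
  have hA : ∀ F : ZMod q → ℂ, ∑ b : ZMod q, ψ b * F b =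
      ∑ u : (ZMod q)ˣ, ψ (u : ZMod q) * F (u : ZMod q) := by
    intro F
    symm
    refine Fintype.sum_of_injective (fun u : (ZMod q)ˣ => (u : ZMod q)) Units.val_injective _ _ ?_
      fun _ => rfl
    intro b hb
    have : ¬ IsUnit b := fun ⟨u, hu⟩ => hb ⟨u, hu⟩
    rw [MulChar.map_nonunit _ this, zero_mul]
  let e : (ZMod q)ˣ ≃ (ZMod q)ˣ :=
    { toFun := fun u => -(c * u)⁻¹
      invFun := fun u => -(c * u)⁻¹
      left_inv := fun u => by simp [mul_inv_rev, mul_comm]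
      right_inv := fun u => by simp [mul_inv_rev, mul_comm] }
  have he : ∀ u : (ZMod q)ˣ, (c : ZMod q) * ((u : ZMod q) * ((e u : (ZMod q)ˣ) : ZMod q)) + 1 = 0 := by
    intro u
    have h1 : c * (u * e u) = -1 := by
      show c * (u * (-(c * u)⁻¹)) = -1
      rw [mul_neg, mul_neg, ← mul_assoc, mul_inv_cancel]
    have h3 := congrArg (fun v : (ZMod q)ˣ => (v : ZMod q)) h1
    simp only [Units.val_mul, Units.val_neg, Units.val_one] at h3
    rw [h3]
    ring
  rw [hA A, hA B, ← Equiv.sum_comp e, Finset.mul_sum]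
  refine Finset.sum_congr rfl fun u _ => ?_
  have he' : (c : ZMod q) * (((e u : (ZMod q)ˣ) : ZMod q) * (u : ZMod q)) + 1 = 0 := by
    rw [mul_comm ((e u : (ZMod q)ˣ) : ZMod q)]
    exact he u
  rw [h _ _ he']
  have h4 : ψ (-(c : ZMod q)) = ψ (u : ZMod q) * ψ ((e u : (ZMod q)ˣ) : ZMod q) := by
    have h5 : (-(c : ZMod q)) * (c * ((u : ZMod q) * ((e u : (ZMod q)ˣ) : ZMod q))) = c := by
      have h6 := he u
      have h7 : (c : ZMod q) * ((u : ZMod q) * ((e u : (ZMod q)ˣ) : ZMod q)) = -1 := by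
        linear_combination h6
      rw [h7]
      ring
    have h8 := congrArg ψ h5
    rw [map_mul, map_mul, map_mul] at h8
    have h9 := sq_apply h2 c
    have h10 := sq_apply h2 u
    have h11 := sq_apply h2 (e u)
    have h12 : ψ (-(c : ZMod q)) * (ψ (u : ZMod q) * ψ ((e u : (ZMod q)ˣ) : ZMod q)) = 1 := by
      have : ψ (c : ZMod q) * (ψ (-(c : ZMod q)) * (ψ (c : ZMod q) *
          (ψ (u : ZMod q) * ψ ((e u : (ZMod q)ˣ) : ZMod q)))) = ψ (c : ZMod q) * ψ (c : ZMod q) := by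
        rw [h8]
      linear_combination this - (ψ (-(c : ZMod q)) *
        (ψ (u : ZMod q) * ψ ((e u : (ZMod q)ˣ) : ZMod q)) - 1) * h9
    linear_combination (ψ (u : ZMod q) * ψ ((e u : (ZMod q)ˣ) : ZMod q)) * h12
      - ψ (-(c : ZMod q)) * (ψ ((e u : (ZMod q)ˣ) : ZMod q) * ψ ((e u : (ZMod q)ˣ) : ZMod q)) * h10
      - ψ (-(c : ZMod q)) * h11
  rw [h4]
  have h10 := sq_apply h2 u
  have h11 := sq_apply h2 (e u)
  linear_combination (-C * ψ ((e u : (ZMod q)ˣ) : ZMod q) * B (u : ZMod q)) * h10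

lemma tw_dvd {f : ℍ → ℂ} {k : ℤ} {M q : ℕ} [NeZero q] (hf : Inv M k f) (hM : M ∣ q)
    {ψ : DirichletCharacter ℂ q} (h2 : ψ ^ 2 = 1) {t : ℝ} (ht : 0 < t) :
    tw f ψ (pt (1 / (q * t))) = (I * t) ^ k * ψ (-1) * tw f ψ (pt (t / q)) := by
  have hq : 0 < q := Nat.pos_of_ne_zero (NeZero.ne q)
  unfold tw
  have h := sum_pair h2 (C := (I * t) ^ k)
    (A := fun b : ZMod q => f (((b.val : ℝ) / q) +ᵥ pt (1 / (q * t))))
    (B := fun b : ZMod q => f (((b.val : ℝ) / q) +ᵥ pt (t / q))) 1 ?_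
  · simpa using h
  · intro b b' hb
    have h1 : (q : ℤ) ∣ (b.val : ℤ) * (b'.val : ℤ) + 1 := by
      rw [← ZMod.intCast_zmod_eq_zero_iff_dvd]
      push_cast
      rw [ZMod.natCast_zmod_val, ZMod.natCast_zmod_val]
      simpa using hb
    have h3 := key_dvd hf hq hM h1 ht
    simpa using h3

lemma tw_coprime {f : ℍ → ℂ} {k : ℤ} {M q : ℕ} [NeZero q] [NeZero M] {w : ℂ} (hf : Inv M k f)
    (hw : Fricke M k w f) (hM : M.Coprime q)
    {ψ : DirichletCharacter ℂ q} (h2 : ψ ^ 2 = 1) {t : ℝ} (ht : 0 < t) :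
    tw f ψ (pt (1 / (Real.sqrt M * q * t))) =
      w * (I * t) ^ k * ψ (-(M : ZMod q)) * tw f ψ (pt (t / (Real.sqrt M * q))) := by
  have hq : 0 < q := Nat.pos_of_ne_zero (NeZero.ne q)
  unfold tw
  have h := sum_pair h2 (C := w * (I * t) ^ k)
    (A := fun b : ZMod q => f (((b.val : ℝ) / q) +ᵥ pt (1 / (Real.sqrt M * q * t))))
    (B := fun b : ZMod q => f (((b.val : ℝ) / q) +ᵥ pt (t / (Real.sqrt M * q))))
    (ZMod.unitOfCoprime M hM) ?_
  · simpa using h
  · intro b b' hb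
    have h1 : (q : ℤ) ∣ (M : ℤ) * ((b.val : ℤ) * (b'.val : ℤ)) + 1 := by
      rw [← ZMod.intCast_zmod_eq_zero_iff_dvd]
      push_cast
      rw [ZMod.natCast_zmod_val, ZMod.natCast_zmod_val]
      simpa using hb
    have h3 := key_coprime hf hw hq h1 ht
    simpa using h3

end Pool.Agent.TH847.TW
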