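import Pool.Agent.TH847.TW.Analytic

/-!
Functional equations of twisted forms on `Γ₀(M)` by real primitive characters modulo `q`, in the two
cases `M ∣ q` and `(M, q) = 1` (the latter for eigenforms of the Fricke involution).
-/

set_option autoImplicit false

open Complex Filter Asymptotics MeasureTheory Set
open UpperHalfPlane hiding I
open scoped Real Topology MatrixGroups ZMod

noncomputable section

namespace Pool.Agent.TH847.TW

/-- weight `k` invariance under `Γ₀(M)` -/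
def Inv (M : ℕ) (k : ℤ) (f : ℍ → ℂ) : Prop :=
  ∀ γ : SL(2, ℤ), γ ∈ CongruenceSubgroup.Gamma0 M → ∀ z : ℍ, f (γ • z) = (denom γ z) ^ k * f z

/-- the point `-1/(M z)` -/
def frickePt (M : ℕ) [NeZero M] (z : ℍ) : ℍ :=
  ⟨-1 / ((M : ℂ) * z), by
    have hM : (0 : ℝ) < M := by exact_mod_cast Nat.pos_of_ne_zero (NeZero.ne M)
    have hz : (0 : ℝ) < z.im := z.im_pos
    have h1 : (-1 / ((M : ℂ) * z)).im = z.im / (M * normSq z) := by
      rw [div_im, normSq_mul]
      simp only [neg_im, one_im, neg_re, one_re, mul_im, natCast_re, natCast_im, normSq_natCast]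
      have : normSq (z : ℂ) ≠ 0 := (normSq_pos.mpr z.ne_zero).ne'
      field_simp
      simp
    rw [h1]
    exact div_pos hz (mul_pos hM (normSq_pos.mpr z.ne_zero))⟩

/-- `f` is an eigenform of the Fricke involution: `f(-1/(Mz)) = w (√M z)^k f(z)` -/
def Fricke (M : ℕ) [NeZero M] (k : ℤ) (w : ℂ) (f : ℍ → ℂ) : Prop :=
  ∀ z : ℍ, f (frickePt M z) = w * (((Real.sqrt M : ℝ) : ℂ) * z) ^ k * f z

lemma mem_Gamma0_of {M : ℕ} {γ : SL(2, ℤ)} (h : (M : ℤ) ∣ γ 1 0) :
    γ ∈ CongruenceSubgroup.Gamma0 M := by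
  rw [CongruenceSubgroup.Gamma0_mem]
  exact (ZMod.intCast_zmod_eq_zero_iff_dvd _ _).mpr h

/-- the case `M ∣ q` -/
lemma key_dvd {f : ℍ → ℂ} {k : ℤ} {M q : ℕ} (hf : Inv M k f) (hq : 0 < q) (hM : M ∣ q) {b b' : ℤ}
    (hb : (q : ℤ) ∣ b * b' + 1) {t : ℝ} (ht : 0 < t) :
    f (((b : ℝ) / q) +ᵥ pt (1 / (q * t))) =
      (I * t) ^ k * f (((b' : ℝ) / q) +ᵥ pt (t / q)) := by
  obtain ⟨y, hy⟩ := hb
  have hq' : (0 : ℝ) < q := by exact_mod_cast hq
  have hqc : (q : ℂ) ≠ 0 := by exact_mod_cast hq.ne'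
  have htc : (t : ℂ) ≠ 0 := by exact_mod_cast ht.ne'
  let γ : SL(2, ℤ) := ⟨!![b, -y; q, -b'], by
    rw [Matrix.det_fin_two_of]
    linarith⟩
  have hγ : γ ∈ CongruenceSubgroup.Gamma0 M := by
    apply mem_Gamma0_of
    show (M : ℤ) ∣ (q : ℤ)
    exact_mod_cast hM
  obtain ⟨z, hz⟩ : ∃ z : ℍ, z = ((b' : ℝ) / q) +ᵥ pt (t / q) := ⟨_, rfl⟩
  rw [← hz]
  have hzc : (z : ℂ) = b' / q + I * (t / q) := by
    rw [hz, coe_vadd, coe_pt (div_pos ht hq')]
    push_cast
    ring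
  have hden : denom γ z = I * t := by
    rw [ModularGroup.denom_apply]
    have h0 : γ 1 0 = (q : ℤ) := rfl
    have h1 : γ 1 1 = -b' := rfl
    rw [h0, h1, hzc]
    push_cast
    field_simp
    ring
  have hpt : γ • z = ((b : ℝ) / q) +ᵥ pt (1 / (q * t)) := by
    rw [UpperHalfPlane.ext_iff, coe_specialLinearGroup_apply, coe_vadd,
      coe_pt (by positivity)]
    have h00 : γ 0 0 = b := rfl
    have h01 : γ 0 1 = -y := rfl
    have h10 : γ 1 0 = (q : ℤ) := rfl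
    have h11 : γ 1 1 = -b' := rfl
    rw [h00, h01, h10, h11, hzc]
    have hyc : (b : ℂ) * b' + 1 = q * y := by exact_mod_cast congrArg (Int.cast : ℤ → ℂ) hy
    simp only [eq_intCast]
    push_cast
    have hd : (q : ℂ) * (b' / q + I * (t / q)) + -b' = I * t := by
      field_simp
      ring
    rw [hd, div_eq_iff (mul_ne_zero I_ne_zero htc)]
    field_simp
    have hI : I ^ 2 = -1 := I_sq
    linear_combination (1 : ℂ) * hyc - (1 : ℂ) * hI
  rw [← hpt, hf γ hγ z, hden]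

/-- the case `(M, q) = 1` -/
lemma key_coprime {f : ℍ → ℂ} {k : ℤ} {M q : ℕ} [NeZero M] {w : ℂ} (hf : Inv M k f)
    (hw : Fricke M k w f) (hq : 0 < q) {b b' : ℤ}
    (hb : (q : ℤ) ∣ M * (b * b') + 1) {t : ℝ} (ht : 0 < t) :
    f (((b : ℝ) / q) +ᵥ pt (1 / (Real.sqrt M * q * t))) =
      w * (I * t) ^ k * f (((b' : ℝ) / q) +ᵥ pt (t / (Real.sqrt M * q))) := by
  obtain ⟨y, hy⟩ := hb
  have hM : (0 : ℝ) < M := by exact_mod_cast Nat.pos_of_ne_zero (NeZero.ne M)
  have hMc : (M : ℂ) ≠ 0 := by exact_mod_cast NeZero.ne M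
  have hs : (0 : ℝ) < Real.sqrt M := Real.sqrt_pos.mpr hM
  have hsc : ((Real.sqrt M : ℝ) : ℂ) ≠ 0 := by exact_mod_cast hs.ne'
  have hs2 : ((Real.sqrt M : ℝ) : ℂ) ^ 2 = M := by
    rw [← ofReal_pow, Real.sq_sqrt hM.le]
    simp
  have hq' : (0 : ℝ) < q := by exact_mod_cast hq
  have hqc : (q : ℂ) ≠ 0 := by exact_mod_cast hq.ne'
  have htc : (t : ℂ) ≠ 0 := by exact_mod_cast ht.ne'
  let γ : SL(2, ℤ) := ⟨!![y, b; M * b', q], by
    rw [Matrix.det_fin_two_of]
    linarith⟩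
  have hγ : γ ∈ CongruenceSubgroup.Gamma0 M := by
    apply mem_Gamma0_of
    show (M : ℤ) ∣ (M * b' : ℤ)
    exact dvd_mul_right _ _
  obtain ⟨z, hz⟩ : ∃ z : ℍ, z = ((b' : ℝ) / q) +ᵥ pt (t / (Real.sqrt M * q)) := ⟨_, rfl⟩
  rw [← hz]
  have hzc : (z : ℂ) = b' / q + I * (t / (Real.sqrt M * q)) := by
    rw [hz, coe_vadd, coe_pt (by positivity)]
    push_cast
    ring
  have hz0 : (z : ℂ) ≠ 0 := z.ne_zero
  have hWc : ((frickePt M z : ℍ) : ℂ) = -1 / (M * z) := rfl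
  have hyc : (M : ℂ) * (b * b') + 1 = q * y := by
    exact_mod_cast congrArg (Int.cast : ℤ → ℂ) hy
  have hqz : (q : ℂ) * z - b' = I * t / Real.sqrt M := by
    rw [hzc]
    field_simp
    ring
  have hden : denom γ (frickePt M z) = I * t / (Real.sqrt M * z) := by
    rw [ModularGroup.denom_apply]
    have h0 : γ 1 0 = (M * b' : ℤ) := rfl
    have h1 : γ 1 1 = (q : ℤ) := rfl
    rw [h0, h1, hWc]
    push_cast
    have h2 : (M : ℂ) * b' * (-1 / (M * z)) + q = ((q : ℂ) * z - b') / z := by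
      field_simp
      ring
    rw [h2, hqz]
    field_simp
  have hpt : γ • frickePt M z = ((b : ℝ) / q) +ᵥ pt (1 / (Real.sqrt M * q * t)) := by
    rw [UpperHalfPlane.ext_iff, coe_specialLinearGroup_apply, coe_vadd,
      coe_pt (by positivity)]
    have h00 : γ 0 0 = y := rfl
    have h01 : γ 0 1 = b := rfl
    have h10 : γ 1 0 = (M * b' : ℤ) := rfl
    have h11 : γ 1 1 = (q : ℤ) := rfl
    rw [h00, h01, h10, h11, hWc]
    simp only [eq_intCast]
    push_cast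
    have h2 : (M : ℂ) * b' * (-1 / (M * z)) + q = ((q : ℂ) * z - b') / z := by
      field_simp
      ring
    have h3 : (y : ℂ) * (-1 / (M * z)) + b = (M * b * z - y) / (M * z) := by
      field_simp
      ring
    have h4 : ((q : ℂ) * z - b') / z ≠ 0 := by
      rw [hqz]
      exact div_ne_zero (div_ne_zero (mul_ne_zero I_ne_zero htc) hsc) hz0
    rw [h2, h3, div_eq_iff h4, hqz]
    have h5 : (q : ℂ) * (M * b * z - y) = M * b * (I * t / Real.sqrt M) - 1 := by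
      rw [← hqz]
      linear_combination hyc
    have hI : I ^ 2 = -1 := I_sq
    have h6 : ((M * b * z - y : ℂ)) = (M * b * (I * t / Real.sqrt M) - 1) / q := by
      rw [eq_div_iff hqc, mul_comm, h5]
    rw [h6]
    field_simp
    linear_combination (-(1 : ℂ)) * hs2 - (M : ℂ) * hI
  rw [← hpt, hf γ hγ _, hden, hw z, ← mul_assoc]
  congr 1
  rw [mul_comm w, ← mul_assoc, ← mul_zpow, mul_comm w]
  congr 2
  field_simp

end Pool.Agent.TH847.TW
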